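import Mathlib

namespace Pool.Agent.Q157.SM

/-- square-free: no two equal adjacent factors of positive length -/
def SqFree (w : ℕ → Fin 3) : Prop :=
  ¬ ∃ P n : ℕ, 1 ≤ n ∧ ∀ t < n, w (P + t) = w (P + n + t)

/-- the 27 blocks of length 28, coded in base 4 -/
def tab : List ℕ :=
  [37322447686878756, 7078812164965924, 27664028310849060,
   7073321931282505, 27664028387547209, 37314753598101577,
   27661824419766674, 37314753485414802, 7078812128977298,
   28293258283468324, 38589703641253412, 27661824002770468,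
   38589723112413257, 5174602671626313, 37322447914571849,
   5174612642046354, 28293287725048210, 7073322120585618,
   28293288482342436, 38589703775356452, 5174603601446436,
   38589701973153865, 5174603007203401, 28293288492079177,
   5174603582431634, 28293287255368082, 38589701944402322]

/-- letter number `r` of the block of base letter `b`, rotation `s`, increment `d` -/
def dg (b s d r : ℕ) : ℕ := (tab.getD (9 * b + 3 * s + d) 0 / 4 ^ r) % 4

/-- the block of base letter `b` from type `s` to type `t` -/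
def blk (b s t : Fin 3) (r : ℕ) : Fin 3 := Fin.ofNat 3 (dg b s (t - s : Fin 3) r)

/-- the marker -/
def mk (s : Fin 3) (r : ℕ) : Fin 3 := blk 0 s 0 r

theorem blk_rot : ∀ b s t : Fin 3, ∀ r < 28, blk b s t r = blk b 0 (t - s) r + s := by
  decide +kernel

theorem blk_mk : ∀ b s t : Fin 3, ∀ r < 7, blk b s t r = mk s r := by
  decide +kernel

theorem mk_uniq : ∀ b s t : Fin 3, ∀ r < 28, 1 ≤ r → ∀ c : Fin 3,
    ∃ i < 7, (if r + i < 28 then blk b s t (r + i) else mk t (r + i - 28)) ≠ mk c i := by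
  decide +kernel

theorem blk_diff : ∀ b b' s t s' t' : Fin 3, b ≠ b' →
    (∃ j < 14, blk b s t j ≠ blk b' s' t' j) ∧
    (∃ j < 28, 14 ≤ j ∧ blk b s t j ≠ blk b' s' t' j) := by
  decide +kernel

theorem blk_adj : ∀ b : Fin 3, ∀ r < 27, blk b 0 0 r ≠ blk b 0 0 (r + 1) := by
  decide +kernel

theorem blk_end : ∀ b b' : Fin 3, blk b 0 0 27 ≠ blk b' 0 0 0 := by
  decide +kernel

theorem blk_zero : blk 0 0 0 0 = 0 := by decide +kernel

/-- there is `t < k` with different letters at `P + t` and `P + n + t` -/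
def cmp (N P n : ℕ) : ℕ → Bool
  | 0 => false
  | (k + 1) => ((N / 4 ^ (P + k)) % 4 != (N / 4 ^ (P + n + k)) % 4) || cmp N P n k

def chkP (N n : ℕ) : ℕ → Bool
  | 0 => true
  | (k + 1) => cmp N k n n && chkP N n k

def chkN (N len : ℕ) : ℕ → Bool
  | 0 => true
  | (k + 1) => chkP N (k + 1) (len + 1 - 2 * (k + 1)) && chkN N len k

def W2 (b d b' d' : ℕ) : ℕ :=
  tab.getD (9 * b + d) 0 + 4 ^ 28 * tab.getD (9 * b' + 3 * d + d') 0
    + 4 ^ 56 * (tab.getD (3 * ((d + d') % 3)) 0 % 4 ^ 6)

theorem chk_all : ∀ b < 3, ∀ b' < 3, b ≠ b' → ∀ d < 3, ∀ d' < 3,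
    chkN (W2 b d b' d') 62 31 = true := by
  decide +kernel

theorem cmp_spec (N P n : ℕ) : ∀ k, cmp N P n k = true →
    ∃ t < k, (N / 4 ^ (P + t)) % 4 ≠ (N / 4 ^ (P + n + t)) % 4 := by
  intro k
  induction k with
  | zero => intro h; simp [cmp] at h
  | succ k ih =>
      intro h
      simp only [cmp, Bool.or_eq_true, bne_iff_ne] at h
      rcases h with h | h
      · exact ⟨k, Nat.lt_succ_self k, h⟩
      · obtain ⟨t, ht, h'⟩ := ih h
        exact ⟨t, by omega, h'⟩

theorem chkP_spec (N n : ℕ) : ∀ k, chkP N n k = true → ∀ P < k,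
    ∃ t < n, (N / 4 ^ (P + t)) % 4 ≠ (N / 4 ^ (P + n + t)) % 4 := by
  intro k
  induction k with
  | zero => intro _ P hP; omega
  | succ k ih =>
      intro h P hP
      simp only [chkP, Bool.and_eq_true] at h
      rcases Nat.lt_or_ge P k with h1 | h1
      · exact ih h.2 P h1
      · have : P = k := by omega
        subst this
        exact cmp_spec N P n n h.1

theorem chkN_spec (N len : ℕ) : ∀ k, chkN N len k = true → ∀ n, 1 ≤ n → n ≤ k →
    ∀ P, P + 2 * n ≤ len →
    ∃ t < n, (N / 4 ^ (P + t)) % 4 ≠ (N / 4 ^ (P + n + t)) % 4 := by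
  intro k
  induction k with
  | zero => intro _ n h1 h2; omega
  | succ k ih =>
      intro h n h1 h2 P hP
      simp only [chkN, Bool.and_eq_true] at h
      rcases Nat.lt_or_ge n (k + 1) with h3 | h3
      · exact ih h.2 n h1 (by omega) P hP
      · have : n = k + 1 := by omega
        subst this
        exact chkP_spec N (k + 1) _ h.1 P (by omega)

/-- letter `j` of two consecutive blocks followed by a marker -/
def E2 (b b' s t u : Fin 3) (j : ℕ) : Fin 3 :=
  if j < 28 then blk b s t j else if j < 56 then blk b' t u (j - 28) else mk u (j - 56)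

theorem E2_dig : ∀ b b' s t u : Fin 3, ∀ j < 62,
    (W2 b (t - s : Fin 3) b' (u - t : Fin 3) / 4 ^ j) % 4 < 3 ∧
    E2 b b' s t u j =
      Fin.ofNat 3 ((W2 b (t - s : Fin 3) b' (u - t : Fin 3) / 4 ^ j) % 4) + s := by
  decide +kernel

theorem E2_nosq (b b' s t u : Fin 3) (hb : b ≠ b') (n P : ℕ) (hn : 1 ≤ n)
    (hP : P + 2 * n ≤ 62) : ∃ i < n, E2 b b' s t u (P + i) ≠ E2 b b' s t u (P + n + i) := by
  have h := chk_all b b.2 b' b'.2 (fun h => hb (Fin.ext h)) (t - s : Fin 3) (t - s : Fin 3).2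
    (u - t : Fin 3) (u - t : Fin 3).2
  obtain ⟨i, hi, hne⟩ := chkN_spec _ _ _ h n hn (by omega) P hP
  refine ⟨i, hi, fun heq => hne ?_⟩
  obtain ⟨h1, h2⟩ := E2_dig b b' s t u (P + i) (by omega)
  obtain ⟨h3, h4⟩ := E2_dig b b' s t u (P + n + i) (by omega)
  rw [h2, h4] at heq
  have h5 := congrArg Fin.val (add_right_cancel heq)
  simp only [Fin.ofNat_eq_cast] at h5
  rw [Fin.val_natCast, Fin.val_natCast, Nat.mod_eq_of_lt h1, Nat.mod_eq_of_lt h3] at h5
  exact h5

/-- the word with base `x` and types `τ` -/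
def wd (x τ : ℕ → Fin 3) (n : ℕ) : Fin 3 :=
  blk (x (n / 28)) (τ (n / 28)) (τ (n / 28 + 1)) (n % 28)

theorem wd_at (x τ : ℕ → Fin 3) (q j : ℕ) (hj : j < 28) :
    wd x τ (28 * q + j) = blk (x q) (τ q) (τ (q + 1)) j := by
  unfold wd
  have h1 : (28 * q + j) / 28 = q := by omega
  have h2 : (28 * q + j) % 28 = j := by omega
  rw [h1, h2]

theorem wd_mk (x τ : ℕ → Fin 3) (q j : ℕ) (hj : j < 7) :
    wd x τ (28 * q + j) = mk (τ q) j := by
  rw [wd_at x τ q j (by omega), blk_mk _ _ _ j hj]

theorem wd_E2 (x τ : ℕ → Fin 3) (q j : ℕ) (hj : j < 62) :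
    wd x τ (28 * q + j) = E2 (x q) (x (q + 1)) (τ q) (τ (q + 1)) (τ (q + 2)) j := by
  unfold E2
  split_ifs with h1 h2
  · exact wd_at x τ q j h1
  · have := wd_at x τ (q + 1) (j - 28) (by omega)
    rw [show 28 * (q + 1) + (j - 28) = 28 * q + j by omega] at this
    exact this
  · have := wd_mk x τ (q + 2) (j - 56) (by omega)
    rw [show 28 * (q + 2) + (j - 56) = 28 * q + j by omega] at this
    exact this

/-- markers occur only at block starts -/
theorem marker_start (x τ : ℕ → Fin 3) (p : ℕ) (c : Fin 3)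
    (h : ∀ i < 7, wd x τ (p + i) = mk c i) : p % 28 = 0 := by
  by_contra hr
  obtain ⟨i, hi, hne⟩ := mk_uniq (x (p / 28)) (τ (p / 28)) (τ (p / 28 + 1)) (p % 28)
    (Nat.mod_lt _ (by norm_num)) (by omega) c
  apply hne
  rw [← h i hi]
  split_ifs with h1
  · have := wd_at x τ (p / 28) (p % 28 + i) h1
    rw [show 28 * (p / 28) + (p % 28 + i) = p + i by omega] at this
    exact this.symm
  · have := wd_mk x τ (p / 28 + 1) (p % 28 + i - 28) (by omega)
    rw [show 28 * (p / 28 + 1) + (p % 28 + i - 28) = p + i by omega] at this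
    exact this.symm

/-- a square in the word gives a shorter square in the base -/
theorem main_sq (x τ : ℕ → Fin 3) (hx : ∀ q, x q ≠ x (q + 1)) (P n : ℕ) (hn : 1 ≤ n)
    (hsq : ∀ t < n, wd x τ (P + t) = wd x τ (P + n + t)) :
    ∃ P' ν, 1 ≤ ν ∧ ν < n ∧ ∀ t < ν, x (P' + t) = x (P' + ν + t) := by
  -- first: 28 divides n
  have hdiv : n % 28 = 0 := by
    by_cases hA : ∃ q, P ≤ 28 * q ∧ 28 * q + 7 ≤ P + n
    · obtain ⟨q, h1, h2⟩ := hA
      have h3 := marker_start x τ (28 * q + n) (τ q) (fun i hi => by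
        rw [← wd_mk x τ q i hi]
        have := hsq (28 * q - P + i) (by omega)
        rw [show P + (28 * q - P + i) = 28 * q + i by omega,
          show P + n + (28 * q - P + i) = 28 * q + n + i by omega] at this
        exact this.symm)
      omega
    · by_cases hA' : ∃ q, P + n ≤ 28 * q ∧ 28 * q + 7 ≤ P + 2 * n
      · obtain ⟨q, h1, h2⟩ := hA'
        have h3 := marker_start x τ (28 * q - n) (τ q) (fun i hi => by
          rw [← wd_mk x τ q i hi]
          have := hsq (28 * q - n - P + i) (by omega)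
          rw [show P + (28 * q - n - P + i) = 28 * q - n + i by omega,
            show P + n + (28 * q - n - P + i) = 28 * q + i by omega] at this
          exact this)
        omega
      · exfalso
        push Not at hA hA'
        have h1 := hA (P / 28 + 1) (by omega)
        have h2 := hA' (P / 28 + 2) (by omega)
        obtain ⟨i, hi, hne⟩ := E2_nosq (x (P / 28)) (x (P / 28 + 1)) (τ (P / 28))
          (τ (P / 28 + 1)) (τ (P / 28 + 2)) (hx _) n (P % 28) hn (by omega)
        apply hne
        rw [← wd_E2 x τ (P / 28) (P % 28 + i) (by omega),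
          ← wd_E2 x τ (P / 28) (P % 28 + n + i) (by omega)]
        have := hsq i hi
        rw [show 28 * (P / 28) + (P % 28 + i) = P + i by omega,
          show 28 * (P / 28) + (P % 28 + n + i) = P + n + i by omega]
        exact this
  -- now n = 28 ν
  obtain ⟨ν, hν⟩ : ∃ ν, n = 28 * ν := ⟨n / 28, by omega⟩
  subst hν
  have hν1 : 1 ≤ ν := by omega
  -- equality of letters of blocks
  have hbl : ∀ q j, j < 28 → P ≤ 28 * q + j → 28 * q + j < P + 28 * ν →
      blk (x q) (τ q) (τ (q + 1)) j = blk (x (q + ν)) (τ (q + ν)) (τ (q + ν + 1)) j := by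
    intro q j hj h1 h2
    have := hsq (28 * q + j - P) (by omega)
    rw [show P + (28 * q + j - P) = 28 * q + j by omega,
      show P + 28 * ν + (28 * q + j - P) = 28 * (q + ν) + j by ring_nf; omega] at this
    rw [wd_at x τ q j hj, wd_at x τ (q + ν) j hj] at this
    exact this
  -- full blocks
  have hfull : ∀ q, P ≤ 28 * q → 28 * q + 28 ≤ P + 28 * ν → x q = x (q + ν) := by
    intro q h1 h2
    by_contra hne
    obtain ⟨⟨j, hj, hj'⟩, -⟩ := blk_diff (x q) (x (q + ν)) (τ q) (τ (q + 1)) (τ (q + ν))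
      (τ (q + ν + 1)) hne
    exact hj' (hbl q j (by omega) (by omega) (by omega))
  by_cases hr : P % 28 = 0
  · refine ⟨P / 28, ν, hν1, by omega, fun t ht => ?_⟩
    have := hfull (P / 28 + t) (by omega) (by omega)
    rw [show P / 28 + ν + t = P / 28 + t + ν by omega]
    exact this
  · -- border blocks
    by_cases hi : x (P / 28) = x (P / 28 + ν)
    · refine ⟨P / 28, ν, hν1, by omega, fun t ht => ?_⟩
      rcases Nat.eq_zero_or_pos t with h0 | h0
      · subst h0
        simpa using hi
      · have := hfull (P / 28 + t) (by omega) (by omega)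
        rw [show P / 28 + ν + t = P / 28 + t + ν by omega]
        exact this
    · by_cases hk : x (P / 28 + ν) = x (P / 28 + ν + ν)
      · refine ⟨P / 28 + 1, ν, hν1, by omega, fun t ht => ?_⟩
        rcases Nat.lt_or_ge (t + 1) ν with h0 | h0
        · have := hfull (P / 28 + 1 + t) (by omega) (by omega)
          rw [show P / 28 + 1 + ν + t = P / 28 + 1 + t + ν by omega]
          exact this
        · rw [show P / 28 + 1 + t = P / 28 + ν by omega,
            show P / 28 + 1 + ν + t = P / 28 + ν + ν by omega]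
          exact hk
      · exfalso
        obtain ⟨-, ⟨j, hj, hj14, hj'⟩⟩ := blk_diff (x (P / 28)) (x (P / 28 + ν)) (τ (P / 28))
          (τ (P / 28 + 1)) (τ (P / 28 + ν)) (τ (P / 28 + ν + 1)) hi
        obtain ⟨⟨l, hl, hl'⟩, -⟩ := blk_diff (x (P / 28 + ν)) (x (P / 28 + ν + ν))
          (τ (P / 28 + ν)) (τ (P / 28 + ν + 1)) (τ (P / 28 + ν + ν)) (τ (P / 28 + ν + ν + 1)) hk
        rcases Nat.lt_or_ge j (P % 28) with h1 | h1
        · exact hl' (hbl (P / 28 + ν) l (by omega) (by omega) (by omega))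
        · exact hj' (hbl (P / 28) j hj (by omega) (by omega))

/-- the base word: fixed point of the substitution of constant type `0` -/
def fx : ℕ → Fin 3
  | 0 => 0
  | (n + 1) => blk (fx ((n + 1) / 28)) 0 0 ((n + 1) % 28)
decreasing_by omega

theorem fx_eq (n : ℕ) : fx n = wd fx (fun _ => 0) n := by
  unfold wd
  rcases n with - | n
  · rw [show (0 : ℕ) / 28 = 0 by norm_num, show (0 : ℕ) % 28 = 0 by norm_num]
    rw [show fx 0 = 0 by rw [fx]]
    exact blk_zero.symm
  · rw [fx]

theorem fx_adj (q : ℕ) : fx q ≠ fx (q + 1) := by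
  rw [fx_eq q, fx_eq (q + 1)]
  unfold wd
  rcases Nat.lt_or_ge (q % 28) 27 with h | h
  · have h1 : (q + 1) / 28 = q / 28 := by omega
    have h2 : (q + 1) % 28 = q % 28 + 1 := by omega
    rw [h1, h2]
    exact blk_adj _ _ h
  · have h1 : q % 28 = 27 := by omega
    have h2 : (q + 1) % 28 = 0 := by omega
    rw [h1, h2]
    exact blk_end _ _

theorem fx_sq : SqFree fx := by
  rintro ⟨P, n, hn, h⟩
  induction n using Nat.strong_induction_on generalizing P with
  | _ n ih =>
      obtain ⟨P', ν, h1, h2, h3⟩ := main_sq fx (fun _ => 0) fx_adj P n hn (by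
        intro t ht
        rw [← fx_eq, ← fx_eq]
        exact h t ht)
      exact ih ν h2 P' h1 h3

theorem wd_sq (τ : ℕ → Fin 3) : SqFree (wd fx τ) := by
  rintro ⟨P, n, hn, h⟩
  obtain ⟨P', ν, h1, h2, h3⟩ := main_sq fx τ fx_adj P n hn h
  exact fx_sq ⟨P', ν, h1, h3⟩

end Pool.Agent.Q157.SM
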