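import Pool.Agent.Q157.SM.Core

namespace Pool.Agent.Q157.SM

/-- the class of block words over the fixed base -/
def Cls : Set (ℕ → Fin 3) := Set.range (wd fx)

/-- a closed set of words with gluing at distance `R` and with all letters at all positions -/
structure Good (F : Set (ℕ → Fin 3)) (R : ℕ) : Prop where
  closed : IsClosed F
  glue : ∀ w ∈ F, ∀ w' ∈ F, ∀ X, ∃ v ∈ F,
    (∀ s < X, v s = w s) ∧ (∀ s, X + R ≤ s → v s = w' s)
  val : ∀ s a, ∃ w ∈ F, w s = a

theorem wd_cont : Continuous (wd fx) := by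
  apply continuous_pi
  intro n
  have h1 : Continuous (fun τ : ℕ → Fin 3 => (τ (n / 28), τ (n / 28 + 1))) :=
    (continuous_apply _).prodMk (continuous_apply _)
  have h2 : Continuous (fun p : Fin 3 × Fin 3 => blk (fx (n / 28)) p.1 p.2 (n % 28)) :=
    continuous_of_discreteTopology
  exact h2.comp h1

theorem cls_closed : IsClosed Cls := (isCompact_range wd_cont).isClosed

theorem cls_good : Good Cls 56 := by
  refine ⟨cls_closed, ?_, ?_⟩
  · rintro _ ⟨τ, rfl⟩ _ ⟨τ', rfl⟩ X
    refine ⟨wd fx (fun q => if q ≤ X / 28 + 1 then τ q else τ' q), ⟨_, rfl⟩, ?_, ?_⟩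
    · intro s hs
      unfold wd
      beta_reduce
      rw [if_pos (by omega), if_pos (by omega)]
    · intro s hs
      unfold wd
      beta_reduce
      rw [if_neg (by omega), if_neg (by omega)]
  · intro s a
    refine ⟨wd fx (fun _ => a - blk (fx (s / 28)) 0 0 (s % 28)), ⟨_, rfl⟩, ?_⟩
    unfold wd
    rw [blk_rot _ _ _ _ (Nat.mod_lt _ (by norm_num)), sub_self]
    simp

theorem presc {F : Set (ℕ → Fin 3)} {R p : ℕ} (hF : Good F R) (hp : R + 1 ≤ p)
    (y : ℕ → Fin 3) : ∃ w ∈ F, ∀ t, w (p * t) = y t := by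
  have hcl : ∀ T : ℕ, IsClosed {w : ℕ → Fin 3 | w ∈ F ∧ ∀ t ≤ T, w (p * t) = y t} := by
    intro T
    have : {w : ℕ → Fin 3 | w ∈ F ∧ ∀ t ≤ T, w (p * t) = y t} =
        F ∩ ⋂ t, ⋂ (_ : t ≤ T), {w : ℕ → Fin 3 | w (p * t) = y t} := by
      ext w; simp
    rw [this]
    refine hF.closed.inter (isClosed_iInter fun t => isClosed_iInter fun _ => ?_)
    exact isClosed_eq (continuous_apply _) continuous_const
  have hne : ∀ T : ℕ, {w : ℕ → Fin 3 | w ∈ F ∧ ∀ t ≤ T, w (p * t) = y t}.Nonempty := by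
    intro T
    induction T with
    | zero =>
        obtain ⟨w, hw, hw'⟩ := hF.val (p * 0) (y 0)
        exact ⟨w, hw, fun t ht => by
          have : t = 0 := by omega
          subst this; exact hw'⟩
    | succ T ih =>
        obtain ⟨w, hw, hw'⟩ := ih
        obtain ⟨g, hg, hg'⟩ := hF.val (p * (T + 1)) (y (T + 1))
        obtain ⟨v, hv, hv1, hv2⟩ := hF.glue w hw g hg (p * T + 1)
        refine ⟨v, hv, fun t ht => ?_⟩
        rcases Nat.lt_or_ge T t with h | h
        · have : t = T + 1 := by omega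
          subst this
          rw [hv2 _ (by rw [Nat.mul_add]; omega)]
          exact hg'
        · rw [hv1 _ (by have := Nat.mul_le_mul_left p h; omega)]
          exact hw' t h
  obtain ⟨w, hw⟩ := IsCompact.nonempty_iInter_of_sequence_nonempty_isCompact_isClosed
    (fun T : ℕ => {w : ℕ → Fin 3 | w ∈ F ∧ ∀ t ≤ T, w (p * t) = y t})
    (fun T w hw => ⟨hw.1, fun t ht => hw.2 t (by omega)⟩) hne (hcl 0).isCompact hcl
  rw [Set.mem_iInter] at hw
  exact ⟨w, (hw 0).1, fun t => (hw t).2 t le_rfl⟩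

/-- the words of `F` whose subsequence modulo `p` is a block word -/
def stp (F : Set (ℕ → Fin 3)) (p : ℕ) : Set (ℕ → Fin 3) :=
  {w | w ∈ F ∧ (fun t => w (p * t)) ∈ Cls}

theorem step_good {F : Set (ℕ → Fin 3)} {R p : ℕ} (hF : Good F R) (hp : 2 * R + 1 ≤ p) :
    Good (stp F p) (59 * p) := by
  refine ⟨?_, ?_, ?_⟩
  · have : stp F p = F ∩ (fun (w : ℕ → Fin 3) (t : ℕ) => w (p * t)) ⁻¹' Cls := rfl
    rw [this]
    refine hF.closed.inter (cls_closed.preimage ?_)
    exact continuous_pi fun t => continuous_apply _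
  · rintro w ⟨hw, hwC⟩ w' ⟨hw', hwC'⟩ X
    have hp0 : 0 < p := by omega
    obtain ⟨y, hy, hy1, hy2⟩ := cls_good.glue _ hwC _ hwC' (X / p + 2)
    obtain ⟨w1, hw1, hw1'⟩ := presc hF (by omega : R + 1 ≤ p) y
    obtain ⟨v1, hv1, hv11, hv12⟩ := hF.glue w hw w1 hw1 (p * (X / p + 1) + 1)
    obtain ⟨v2, hv2, hv21, hv22⟩ := hF.glue v1 hv1 w' hw' (p * (X / p + 58) + 1)
    have hX : X < p * (X / p + 1) := by
      have := Nat.lt_mul_div_succ X hp0
      exact this
    have hXle : p * (X / p) ≤ X := Nat.mul_div_le X p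
    have hm1 : p * (X / p + 1) = p * (X / p) + p := by ring
    have hm58 : p * (X / p + 58) = p * (X / p) + 58 * p := by ring
    refine ⟨v2, ⟨hv2, ?_⟩, ?_, ?_⟩
    · have : (fun t => v2 (p * t)) = y := by
        funext t
        rcases Nat.lt_or_ge t (X / p + 2) with h | h
        · have h1 : p * t ≤ p * (X / p + 1) := Nat.mul_le_mul_left p (by omega)
          rw [hv21 _ (by omega), hv11 _ (by omega), hy1 t h]
        · have h1 : p * (X / p + 2) ≤ p * t := Nat.mul_le_mul_left p h
          have hm2 : p * (X / p + 2) = p * (X / p) + 2 * p := by ring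
          rcases Nat.lt_or_ge t (X / p + 59) with h' | h'
          · have h2 : p * t ≤ p * (X / p + 58) := Nat.mul_le_mul_left p (by omega)
            rw [hv21 _ (by omega), hv12 _ (by omega), hw1']
          · have h2 : p * (X / p + 59) ≤ p * t := Nat.mul_le_mul_left p h'
            have hm3 : p * (X / p + 59) = p * (X / p) + 59 * p := by ring
            rw [hv22 _ (by omega), hy2 t (by omega)]
      rw [this]
      exact hy
    · intro s hs
      rw [hv21 s (by omega), hv11 s (by omega)]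
    · intro s hs
      exact hv22 s (by omega)
  · intro s a
    have hp0 : 0 < p := by omega
    obtain ⟨g, hg, hga⟩ := hF.val s a
    -- choice of the index matched by `g` and of the interval
    obtain ⟨c, A, B, hA, hB, hc1, hc2, hcl, hcr⟩ : ∃ c A B : ℕ, A ≤ s ∧ s ≤ B ∧
        A ≤ p * c ∧ p * c ≤ B ∧ (∀ t < c, p * t + 1 + R ≤ A) ∧
        (∀ t, c < t → B + 1 + R ≤ p * t) := by
      have h1 : p * (s / p) ≤ s := Nat.mul_div_le s p
      have h2 : s < p * (s / p + 1) := Nat.lt_mul_div_succ s hp0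
      have hm : p * (s / p + 1) = p * (s / p) + p := by ring
      rcases Nat.lt_or_ge (s + R) (p * (s / p + 1)) with h | h
      · refine ⟨s / p, p * (s / p), s, h1, le_rfl, le_rfl, h1, ?_, ?_⟩
        · intro t ht
          have : p * (t + 1) ≤ p * (s / p) := Nat.mul_le_mul_left p ht
          have hm' : p * (t + 1) = p * t + p := by ring
          omega
        · intro t ht
          have : p * (s / p + 1) ≤ p * t := Nat.mul_le_mul_left p ht
          omega
      · refine ⟨s / p + 1, s, p * (s / p + 1), le_rfl, h2.le, h2.le, le_rfl, ?_, ?_⟩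
        · intro t ht
          have : p * t ≤ p * (s / p) := Nat.mul_le_mul_left p (by omega)
          omega
        · intro t ht
          have : p * (s / p + 1 + 1) ≤ p * t := Nat.mul_le_mul_left p ht
          have hm' : p * (s / p + 1 + 1) = p * (s / p + 1) + p := by ring
          omega
    obtain ⟨y, hy, hyc⟩ := cls_good.val c (g (p * c))
    obtain ⟨w1, hw1, hw1'⟩ := presc hF (by omega : R + 1 ≤ p) y
    -- glue w1, g, w1
    obtain ⟨v, hv, hv1, hv2⟩ : ∃ v ∈ F, (∀ r, r + 1 + R ≤ A → v r = w1 r) ∧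
        (∀ r, A ≤ r → v r = g r) := by
      rcases Nat.lt_or_ge A R with h | h
      · exact ⟨g, hg, fun r hr => by omega, fun r _ => rfl⟩
      · obtain ⟨v, hv, h1, h2⟩ := hF.glue w1 hw1 g hg (A - R)
        exact ⟨v, hv, fun r hr => h1 r (by omega), fun r hr => h2 r (by omega)⟩
    obtain ⟨v', hv', hv1', hv2'⟩ := hF.glue v hv w1 hw1 (B + 1)
    refine ⟨v', ⟨hv', ?_⟩, ?_⟩
    · have : (fun t => v' (p * t)) = y := by
        funext t
        rcases lt_trichotomy t c with h | h | h
        · have h1 := hcl t h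
          rw [hv1' _ (by omega), hv1 _ (by omega), hw1']
        · subst h
          rw [hv1' _ (by omega), hv2 _ (by omega), hyc]
        · have h1 := hcr t h
          rw [hv2' _ (by omega), hw1']
      rw [this]
      exact hy
    · rw [hv1' _ (by omega), hv2 _ (by omega), hga]

/-- the nested classes -/
def Fs (p : ℕ → ℕ) : ℕ → Set (ℕ → Fin 3)
  | 0 => Cls
  | (n + 1) => stp (Fs p n) (p n)

def Rs (p : ℕ → ℕ) : ℕ → ℕ
  | 0 => 56
  | (n + 1) => 59 * p n

theorem Fs_good (p : ℕ → ℕ) (h0 : 113 ≤ p 0) (hs : ∀ i, 118 * p i < p (i + 1)) :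
    ∀ n, Good (Fs p n) (Rs p n) := by
  intro n
  induction n with
  | zero => exact cls_good
  | succ n ih =>
      refine step_good ih ?_
      rcases n with - | n
      · simp only [Rs]; omega
      · simp only [Rs]
        have := hs n
        omega

theorem exists_word (p : ℕ → ℕ) (h0 : 113 ≤ p 0) (hs : ∀ i, 118 * p i < p (i + 1)) :
    ∃ w : ℕ → Fin 3, SqFree w ∧ ∀ i, SqFree (fun t => w (p i * t)) := by
  have hg := Fs_good p h0 hs
  obtain ⟨w, hw⟩ := IsCompact.nonempty_iInter_of_sequence_nonempty_isCompact_isClosed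
    (Fs p) (fun n w hw => hw.1)
    (fun n => by
      obtain ⟨w, hw, -⟩ := (hg n).val 0 0
      exact ⟨w, hw⟩) (hg 0).closed.isCompact (fun n => (hg n).closed)
  rw [Set.mem_iInter] at hw
  refine ⟨w, ?_, fun i => ?_⟩
  · obtain ⟨τ, hτ⟩ := hw 0
    rw [← hτ]
    exact wd_sq τ
  · obtain ⟨τ, hτ⟩ := (hw (i + 1)).2
    rw [← hτ]
    exact wd_sq τ

end Pool.Agent.Q157.SM
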